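import Pool.Agent.P.MP_728aaa_nt.Final

namespace Pool.Agent.Results.MP_728aaa_nt.BadWithExponents

open Pool.Agent.P.MP_728aaa_nt

/-- For every `n ≥ 2` and `τ ≥ 1` there is a badly approximable `ξ` with
`w_n(ξ) = τ (n + 1) - 1`, and a badly approximable `ξ` with `w_n^*(ξ) = τ (n + 1) - 1`, the
latter whether the approximating algebraic numbers range over `ℂ` or over `ℝ`. -/
theorem result (n : ℕ) (hn : 2 ≤ n) (τ : ℝ) (hτ : 1 ≤ τ) :
    (∃ ξ : ℝ, BadlyApprox ξ ∧ IsLUB (mahlerSet n ξ) (τ * (n + 1) - 1)) ∧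
    ∃ ξ : ℝ, BadlyApprox ξ ∧ IsLUB (koksmaSet Set.univ n ξ) (τ * (n + 1) - 1) ∧
      IsLUB (koksmaSet (Set.range Complex.ofReal) n ξ) (τ * (n + 1) - 1) := by
  have hw : (n : ℝ) ≤ τ * (n + 1) - 1 := by nlinarith [Nat.cast_nonneg (α := ℝ) n]
  obtain ⟨y, hy⟩ := mahler hn hw
  obtain ⟨z, hz⟩ := koksma hn hw
  exact ⟨⟨_, badlyApprox_xi y, hy⟩, _, badlyApprox_xi z, hz _ (Set.subset_univ _), hz _ subset_rfl⟩

end Pool.Agent.Results.MP_728aaa_nt.BadWithExponents
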